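import Pool.Agent.Lib.MP_25e40f_pr.U.Trn

/-!
# Stream U, job Path: finite energy (about 150 lines)

`arm2_step`: `y, z ∈ Lam r`, `z ∈ nb y`, `0 < p ≤ 1`:  `arm2 p x z r ≤ arm2 p y z r + (1 + 1/p) arm2 p x y r`.
Let `∂ = Lam (r+1) \ Lam r`, `E = ein (Lam (r+1))`, `e = s(y, z) ∈ E`, `A_{xy} ω` the event of `arm2 p x y r`.  For `ω ⊆ E` with `A_{xz} ω`:
  Case 1: `y` is connected to `∂` in `ω`.  If `Conn ω x y`: then not `Conn ω y z`, so `A_{yz} ω`.  If not `Conn ω x y`: `A_{xy} ω`.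
  Case 2: `y` is not connected to `∂` in `ω`.  Then in `insert e ω`: `y` is connected to `z` and to `∂`; `x` is connected to `∂`; and `x` is not connected to `y` in `insert e ω`: by `Conn_insert` otherwise `Conn ω x y` (then `y` is connected to `∂`:
  excluded), or `Conn ω x y ∧ ..`, or `Conn ω x z ∧ ..`: all excluded.  So `A_{xy} (insert e ω)`.
So `Pr A_{xz} ≤ Pr A_{yz} + Pr A_{xy} + Pr (A_{xy} (insert e ω))` and `Pr_insert_le`: `p * Pr p E (fun ω => A (insert e ω)) ≤ Pr p E A` for `e ∈ E`:  write `E = insert e E'`; both sides by `EE_insert`: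
`Pr p E (fun ω => A (insert e ω)) = Pr p E' (fun ω => A (insert e ω))` (as `insert e (insert e ω) = insert e ω`) and `Pr p E A = p * Pr p E' (fun ω => A (insert e ω)) + (1-p) * (..≥ 0)`.
`arm2_self`: `arm2 p x x r = 0` (`Pr_false`).
`arm2_tendsto`: on `ℤᵈ` by induction along `Relation.ReflTransGen nb x y` (`S.zconn`), `0 ≤ arm2 ≤` the bound of `arm2_step` for all large `r` (`exists_Lam`, `Lam_mono`), squeeze.  The hypothesis `hnb` is `arm2_nb_tendsto` of job Avg.
-/

set_option autoImplicit false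

noncomputable section

open Finset
open scoped Classical

namespace IPC.U

theorem Pr_insert_le {ε : Type} [DecidableEq ε] {p : ℝ} (h0 : 0 ≤ p) (h1 : p ≤ 1) {E : Finset ε}
    {e : ε} (he : e ∈ E) (A : Finset ε → Prop) :
    p * Pr p E (fun ω => A (insert e ω)) ≤ Pr p E A := by
  have hE : E = insert e (E.erase e) := (Finset.insert_erase he).symm
  have he' : e ∉ E.erase e := Finset.notMem_erase e E
  have h2 : Pr p E A = p * Pr p (E.erase e) (fun ω => A (insert e ω)) + (1 - p) * Pr p (E.erase e) A := by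
    have h3 : Pr p E A = Pr p (insert e (E.erase e)) A := by rw [← hE]
    rw [h3]
    exact EE_insert p he' (fun ω => ind (A ω))
  have h4 : Pr p E (fun ω => A (insert e ω)) = Pr p (E.erase e) (fun ω => A (insert e ω)) := by
    have h5 : Pr p E (fun ω => A (insert e ω)) =
        Pr p (insert e (E.erase e)) (fun ω => A (insert e ω)) := by rw [← hE]
    rw [h5]
    have h6 : Pr p (insert e (E.erase e)) (fun ω => A (insert e ω)) =
        p * Pr p (E.erase e) (fun ω => A (insert e (insert e ω))) +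
          (1 - p) * Pr p (E.erase e) (fun ω => A (insert e ω)) :=
      EE_insert p he' (fun ω => ind (A (insert e ω)))
    have h7 : (fun ω => A (insert e (insert e ω))) = (fun ω => A (insert e ω)) := by
      funext ω
      rw [Finset.insert_idem]
    rw [h6, h7]
    ring
  rw [h2, h4]
  have h8 : 0 ≤ (1 - p) * Pr p (E.erase e) A :=
    mul_nonneg (by linarith) (Pr_nonneg h0 h1 _ _)
  linarith

variable {V : Type} [DecidableEq V]

theorem arm2_nonneg (G : PG V) {p : ℝ} (h0 : 0 ≤ p) (h1 : p ≤ 1) (x y : V) (r : ℕ) :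
    0 ≤ arm2 G p x y r := Pr_nonneg h0 h1 _ _

theorem arm2_self (G : PG V) (p : ℝ) (x : V) (r : ℕ) : arm2 G p x x r = 0 :=
  Pr_false p _ fun ω _ h => h.2.2 (Conn_refl ω x)

/-- the event of two arms -/
private def Path_A (B : Finset V) (x y : V) (ω : Finset (Sym2 V)) : Prop :=
  (∃ z ∈ B, Conn ω x z) ∧ (∃ z ∈ B, Conn ω y z) ∧ ¬ Conn ω x y

private theorem Path_step (B : Finset V) {x y z : V} {ω : Finset (Sym2 V)} (h : Path_A B x z ω) :
    Path_A B y z ω ∨ (Path_A B x y ω ∨ Path_A B x y (insert s(y, z) ω)) := by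
  obtain ⟨⟨a, ha, hxa⟩, ⟨b, hb, hzb⟩, hxz⟩ := h
  by_cases hy : ∃ w ∈ B, Conn ω y w
  · by_cases hxy : Conn ω x y
    · exact Or.inl ⟨hy, ⟨b, hb, hzb⟩, fun hyz => hxz (Conn_trans hxy hyz)⟩
    · exact Or.inr (Or.inl ⟨⟨a, ha, hxa⟩, hy, hxy⟩)
  · right
    right
    have hsub : ω ⊆ insert s(y, z) ω := Finset.subset_insert _ _
    have hno : ¬ Conn ω x y := fun hxy => hy ⟨a, ha, Conn_trans (Conn_symm hxy) hxa⟩
    refine ⟨⟨a, ha, Conn_mono hsub hxa⟩, ⟨b, hb, ?_⟩, ?_⟩
    · exact Conn_trans (Conn_edge (Finset.mem_insert_self _ _)) (Conn_mono hsub hzb)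
    · intro hc
      rcases Conn_insert hc with h1 | h1 | h1
      · exact hno h1
      · exact hno h1.1
      · exact hxz h1.1

theorem arm2_step (G : PG V) {p : ℝ} (h0 : 0 < p) (h1 : p ≤ 1) {r : ℕ} (x : V) {y z : V}
    (hy : y ∈ G.Lam r) (hyz : z ∈ G.nb y) :
    arm2 G p x z r ≤ arm2 G p y z r + (1 + 1 / p) * arm2 G p x y r := by
  have he : s(y, z) ∈ G.ein (G.Lam (r + 1)) :=
    (T.mem_ein G).2 ⟨hyz, G.mono r hy, G.step r y hy hyz⟩
  have h2 : arm2 G p x z r ≤ Pr p (G.ein (G.Lam (r + 1)))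
      (fun ω => Path_A (G.Lam (r + 1) \ G.Lam r) y z ω ∨
        (Path_A (G.Lam (r + 1) \ G.Lam r) x y ω ∨
          Path_A (G.Lam (r + 1) \ G.Lam r) x y (insert s(y, z) ω))) :=
    Pr_mono h0.le h1 _ fun ω _ h => Path_step _ h
  have h3 := Pr_or_le h0.le h1 (G.ein (G.Lam (r + 1)))
    (Path_A (G.Lam (r + 1) \ G.Lam r) y z)
    (fun ω => Path_A (G.Lam (r + 1) \ G.Lam r) x y ω ∨
      Path_A (G.Lam (r + 1) \ G.Lam r) x y (insert s(y, z) ω))
  have h4 := Pr_or_le h0.le h1 (G.ein (G.Lam (r + 1)))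
    (Path_A (G.Lam (r + 1) \ G.Lam r) x y)
    (fun ω => Path_A (G.Lam (r + 1) \ G.Lam r) x y (insert s(y, z) ω))
  have h5 := Pr_insert_le h0.le h1 he (Path_A (G.Lam (r + 1) \ G.Lam r) x y)
  have e1 : Pr p (G.ein (G.Lam (r + 1))) (Path_A (G.Lam (r + 1) \ G.Lam r) y z) = arm2 G p y z r := rfl
  have e2 : Pr p (G.ein (G.Lam (r + 1))) (Path_A (G.Lam (r + 1) \ G.Lam r) x y) = arm2 G p x y r := rfl
  rw [e1] at h3
  rw [e2] at h4 h5
  have h6 : Pr p (G.ein (G.Lam (r + 1)))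
      (fun ω => Path_A (G.Lam (r + 1) \ G.Lam r) x y (insert s(y, z) ω)) ≤ 1 / p * arm2 G p x y r := by
    rw [one_div, ← div_eq_inv_mul, le_div_iff₀ h0]
    linarith
  linarith

theorem arm2_tendsto {d : ℕ} {p : ℝ} (h0 : 0 < p) (h1 : p ≤ 1)
    (hnb : ∀ x y : Fin d → ℤ, y ∈ (Zg d).nb x →
      Filter.Tendsto (arm2 (Zg d) p x y) Filter.atTop (nhds 0)) (x y : Fin d → ℤ) :
    Filter.Tendsto (arm2 (Zg d) p x y) Filter.atTop (nhds 0) := by
  have hc := S.zconn x y
  induction hc with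
  | refl =>
    have h2 : arm2 (Zg d) p x x = fun _ => 0 := by
      funext r
      exact arm2_self _ p x r
    rw [h2]
    exact tendsto_const_nhds
  | tail _ hbc ih =>
    rename_i b c _
    have h2 : Filter.Tendsto (fun r => arm2 (Zg d) p b c r + (1 + 1 / p) * arm2 (Zg d) p x b r)
        Filter.atTop (nhds 0) := by
      have h3 := (hnb b c hbc).add (ih.const_mul (1 + 1 / p))
      rw [mul_zero, add_zero] at h3
      exact h3
    obtain ⟨r0, hr0⟩ := T.exists_Lam (Zg d) {b}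
    refine squeeze_zero' (Filter.Eventually.of_forall fun r => arm2_nonneg _ h0.le h1 _ _ _) ?_ h2
    filter_upwards [Filter.eventually_ge_atTop r0] with r hr
    exact arm2_step (Zg d) h0 h1 x (T.Lam_mono (Zg d) hr (hr0 (Finset.mem_singleton_self b))) hbc

end IPC.U
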