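import Pool.Agent.Lib.MP_25e40f_pr.U.Avg
import Pool.Agent.Lib.MP_25e40f_pr.U.Path

/-!
# Stream U, job Fin: uniqueness in the form `τ_p(x, y) ≥ c > 0` if there is percolation (about 150 lines)

`tau_ge`: Harris in `ein (Lam (r+1))` for the two increasing arm events: `arm x r * arm y r ≤ Pr (both) = Pr (both ∧ Conn x y) + Pr (both ∧ ¬ Conn x y) ≤ tauD (Lam (r+1)) x y + arm2 x y r ≤ tau x y + arm2 x y r` (`harris`, `Pr_split`, `Pr_mono`, `tauD_le_tau`).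
`arm_shift`: `nrm (y - x) ≤ k`, `y ∈ Lam r`: `arm p x (r + k) ≤ arm p y r`: `Pr_iso` with the translation by `a = y - x` and then `arm_ge` (T/Arm) with `D = (Lam (r+k+1)).image (a + ·)`, `T = {v | v ∉ Lam r}`: a point `z ∉ Lam (r+k)` is mapped to `a + z` with
`nrm (a + z) ≥ nrm z - k > r`.
`arm_lower`: if `¬ NoPerc p` there are `x` and `c > 0` and `r0` with `c ≤ arm p x r` for all `r ≥ r0`: choose `x` with `arm p x` not tending to `0`, `r0` with `x ∈ Lam r0` (`cover`), `arm p x` is antitone on `[r0, ∞)` (`arm_anti`) and nonnegative; if for every `c > 0`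
some `r ≥ r0` has `arm p x r < c`, it tends to `0` (`Metric.tendsto_atTop`).
`uniq`: for all `y`: `c ≤ arm p y r` for all large `r` (`arm_shift`, `arm p y r ≥ arm p x (r + k) ≥ c`).  Then `c * c ≤ tau x' y' + arm2 x' y' r → tau x' y'` (`arm2_tendsto` with `hnb := arm2_nb_tendsto`): `ge_of_tendsto` etc.
`p = 0`: there `NoPerc` holds (`x ∈ Lam r`: a connection to `∂` needs an open edge; `Pr` of it is `0`), so `¬ NoPerc p` gives `0 < p`; simply assume `0 < p`.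
`noPerc_of_sum_sq`: `d ≥ 1`: otherwise `c² ≤ τ(x,y)²` for all `y`, and there are finite sets of any cardinality (`Infinite (Fin d → ℤ)`, `Infinite.exists_subset_card_eq`, or the boxes `card_Lam`): `(2 r + 1)^d c² ≤ C` for all `r`, impossible.
-/

set_option autoImplicit false

noncomputable section

open Finset
open scoped Classical

namespace IPC.U

theorem tau_ge {V : Type} [DecidableEq V] (G : PG V) {p : ℝ} (h0 : 0 ≤ p) (h1 : p ≤ 1) (x y : V)
    (r : ℕ) : G.arm p x r * G.arm p y r ≤ G.tau p x y + arm2 G p x y r := by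
  have hA : ∀ v, Inc (fun ω : Finset (Sym2 V) => ∃ z ∈ G.Lam (r + 1) \ G.Lam r, Conn ω v z) := by
    rintro v ω ω' h ⟨z, hz, hc⟩
    exact ⟨z, hz, Conn_mono h hc⟩
  have h2 := harris h0 h1 (G.ein (G.Lam (r + 1))) _ _ (hA x) (hA y)
  refine h2.trans ?_
  rw [Pr_split p (G.ein (G.Lam (r + 1))) _ (fun ω => Conn ω x y)]
  refine add_le_add ?_ ?_
  · exact (Pr_mono h0 h1 _ (fun ω _ h => h.2)).trans (T.tauD_le_tau G h0 h1 (G.Lam (r + 1)) x y)
  · exact Pr_mono h0 h1 _ (fun ω _ h => ⟨h.1.1, h.1.2, h.2⟩)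

private theorem Fin_Lam_mono {V : Type} [DecidableEq V] (G : PG V) {r s : ℕ} (h : r ≤ s) : G.Lam r ⊆ G.Lam s :=
  monotone_nat_of_le_succ (f := G.Lam) G.mono h

theorem arm_shift {d : ℕ} {p : ℝ} (h0 : 0 ≤ p) (h1 : p ≤ 1) {x y : Fin d → ℤ} {k r : ℕ}
    (hk : S.nrm (y - x) ≤ k) (hy : y ∈ (Zg d).Lam r) :
    (Zg d).arm p x (r + k) ≤ (Zg d).arm p y r := by
  set a : Fin d → ℤ := y - x with ha
  have hax : a + x = y := by rw [ha]; abel
  have h2 := T.arm_ge (Zg d) h0 h1 (((Zg d).Lam (r + k + 1)).image (Equiv.addLeft a)) hy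
    (T := {v | v ∉ (Zg d).Lam r}) (fun v hv => hv)
  refine le_trans ?_ h2
  rw [T.Pr_iso (Zg d) (Zg d) p (Equiv.addLeft a) (S.nb_addLeft a)]
  refine Pr_mono h0 h1 _ ?_
  rintro ω _ ⟨z, hz, hc⟩
  rw [mem_sdiff] at hz
  refine ⟨a + z, ?_, ?_⟩
  · intro hm
    rw [S.mem_Lam] at hm
    apply hz.2
    rw [S.mem_Lam]
    have e : z = (a + z) + -a := by abel
    rw [e]
    refine (S.nrm_add _ _).trans ?_
    rw [S.nrm_neg]
    omega
  · rw [← hax]
    exact (Conn_image (⇑(Equiv.addLeft a)) (Equiv.addLeft a).injective ω x z).2 hc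

theorem arm_lower {V : Type} [DecidableEq V] (G : PG V) {p : ℝ} (h0 : 0 ≤ p) (h1 : p ≤ 1)
    (h : ¬ G.NoPerc p) : ∃ x, ∃ c : ℝ, 0 < c ∧ ∃ r0 : ℕ, ∀ r, r0 ≤ r → c ≤ G.arm p x r := by
  unfold PG.NoPerc at h
  rw [not_forall] at h
  obtain ⟨x, hx⟩ := h
  refine ⟨x, ?_⟩
  by_contra hcon
  apply hx
  obtain ⟨r0, hr0⟩ := G.cover x
  rw [Metric.tendsto_atTop]
  intro ε hε
  by_contra hne
  apply hcon
  refine ⟨ε, hε, r0, fun r hr => ?_⟩
  by_contra hlt
  apply hne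
  refine ⟨r, fun n hn => ?_⟩
  rw [Real.dist_eq, sub_zero, abs_of_nonneg (T.arm_nonneg G h0 h1 x n)]
  exact (T.arm_anti G h0 h1 hn (Fin_Lam_mono G hr hr0)).trans_lt (not_le.1 hlt)

/-- on `ℤᵈ`: if there is percolation at `p`, the two point function is bounded below -/
theorem uniq {d : ℕ} {p : ℝ} (hp0 : 0 < p) (hp1 : p < 1) (h : ¬ (Zg d).NoPerc p) :
    ∃ c : ℝ, 0 < c ∧ ∀ x y : Fin d → ℤ, c ≤ (Zg d).tau p x y := by
  obtain ⟨x0, c, hc, r0, hr0⟩ := arm_lower (Zg d) hp0.le hp1.le h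
  refine ⟨c * c, mul_pos hc hc, fun x y => ?_⟩
  have hev : ∀ v : Fin d → ℤ, ∀ᶠ r in Filter.atTop, c ≤ (Zg d).arm p v r := by
    intro v
    filter_upwards [Filter.eventually_ge_atTop (max r0 (S.nrm v))] with r hr
    have h2 : v ∈ (Zg d).Lam r := S.mem_Lam.2 ((le_max_right _ _).trans hr)
    exact (hr0 (r + S.nrm (v - x0)) (((le_max_left _ _).trans hr).trans (Nat.le_add_right _ _))).trans
      (arm_shift hp0.le hp1.le le_rfl h2)
  have ht := arm2_tendsto hp0 hp1.le (fun x y hxy => arm2_nb_tendsto hp0 hp1 hxy) x y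
  have ht2 : Filter.Tendsto (fun r => (Zg d).tau p x y + arm2 (Zg d) p x y r) Filter.atTop
      (nhds ((Zg d).tau p x y + 0)) := Filter.Tendsto.const_add _ ht
  rw [add_zero] at ht2
  refine ge_of_tendsto ht2 ?_
  filter_upwards [hev x, hev y] with r hx hy
  exact (mul_le_mul hx hy hc.le (hc.le.trans hx)).trans (tau_ge (Zg d) hp0.le hp1.le x y r)

theorem noPerc_of_sum_sq {d : ℕ} (hd : 1 ≤ d) {p : ℝ} (hp0 : 0 < p) (hp1 : p < 1) (x : Fin d → ℤ)
    (C : ℝ) (h : ∀ s : Finset (Fin d → ℤ), ∑ y ∈ s, (Zg d).tau p x y ^ 2 ≤ C) :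
    (Zg d).NoPerc p := by
  by_contra hn
  obtain ⟨c, hc, hcl⟩ := uniq hp0 hp1 hn
  obtain ⟨r, hr⟩ := exists_nat_gt (C / c ^ 2)
  have hc2 : 0 < c ^ 2 := pow_pos hc 2
  have h2 : (((Zg d).Lam r).card : ℝ) * c ^ 2 ≤ C := by
    refine le_trans ?_ (h ((Zg d).Lam r))
    rw [← nsmul_eq_mul]
    exact card_nsmul_le_sum _ _ _ fun y _ => pow_le_pow_left₀ hc.le (hcl x y) 2
  rw [S.card_Lam] at h2
  have h3 : (r : ℝ) ≤ (((2 * r + 1) ^ d : ℕ) : ℝ) := by
    have : r ≤ (2 * r + 1) ^ d := by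
      calc r ≤ 2 * r + 1 := by omega
        _ = (2 * r + 1) ^ 1 := (pow_one _).symm
        _ ≤ (2 * r + 1) ^ d := Nat.pow_le_pow_right (by omega) hd
    exact_mod_cast this
  have h4 : C < r * c ^ 2 := by rwa [div_lt_iff₀ hc2] at hr
  exact absurd (h4.trans_le ((mul_le_mul_of_nonneg_right h3 hc2.le).trans h2)) (lt_irrefl _)

end IPC.U
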