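import Mathlib

/-!
# Stream U, job Log: a real inequality (about 80 lines)

`0 < p < 1`, `0 < s ≤ p / 2`, `x = s / p ∈ (0, 1/2]`, `y = s / (1 - p) > 0`, `q = p (1 - p)`.
`log (1 - x) ≥ -x - x²` for `0 ≤ x ≤ 1/2`; `log (1 + y) ≥ y - y²` for `y ≥ 0`.
[First: `1 - x ≥ exp (-x - x²)`; e.g. `Real.one_sub_inv_le_log_of_pos : 1 - t⁻¹ ≤ log t`: `log (1 - x) ≥ 1 - 1/(1-x) = -x/(1-x) ≥ -x - x²`?  No: `x/(1-x) = x + x²/(1-x) ≤ x + 2x²`.  So use the weaker constant: `log (1-x) ≥ -x - 2x²` for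
`x ≤ 1/2`, and `log (1+y) ≥ 1 - 1/(1+y) = y/(1+y) ≥ y - y²`.]
Let `A = i log (1-x) + j log (1+y)`, so `exp A = (1-x)^i (1+y)^j ≥ A` (`Real.add_one_le_exp`), and
`A ≥ -i x - 2 i x² + j y - j y²`.  Multiply by `q / s > 0`: `(q/s) x = 1-p`, `(q/s) y = p`, `(q/s) 2 x² = 2 s (1-p)/p ≤ 2 s/(p(1-p))`, `(q/s) y² = s p/(1-p) ≤ s/(p(1-p))`.
-/

set_option autoImplicit false

namespace IPC.U

theorem key_ineq {p s : ℝ} (hp0 : 0 < p) (hp1 : p < 1) (hs0 : 0 < s) (hs : s ≤ p / 2) (i j : ℕ) :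
    p * (j : ℝ) - (1 - p) * (i : ℝ) ≤
      p * (1 - p) / s * ((1 - s / p) ^ i * (1 + s / (1 - p)) ^ j) +
        2 * s / (p * (1 - p)) * ((i : ℝ) + (j : ℝ)) := by
  have hq : 0 < 1 - p := by linarith
  have hi : (0 : ℝ) ≤ i := Nat.cast_nonneg _
  have hj : (0 : ℝ) ≤ j := Nat.cast_nonneg _
  obtain ⟨x, hx⟩ : ∃ x, x = s / p := ⟨_, rfl⟩
  obtain ⟨y, hy⟩ : ∃ y, y = s / (1 - p) := ⟨_, rfl⟩
  have hx0 : 0 < x := by rw [hx]; positivity
  have hy0 : 0 < y := by rw [hy]; positivity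
  have hx1 : x ≤ 1 / 2 := by
    rw [hx, div_le_iff₀ hp0]
    linarith
  have hsx : s = x * p := by rw [hx]; field_simp
  have hsy : s = y * (1 - p) := by rw [hy]; field_simp
  have hx2 : 0 < 1 - x := by linarith
  have hl1 : -x - 2 * x ^ 2 ≤ Real.log (1 - x) := by
    refine le_trans ?_ (Real.one_sub_inv_le_log_of_pos hx2)
    have h1 : (1 - x)⁻¹ ≤ 1 + x + 2 * x ^ 2 := by
      rw [inv_le_iff_one_le_mul₀ hx2]
      nlinarith [mul_nonneg (sq_nonneg x) (by linarith : (0 : ℝ) ≤ 1 - 2 * x)]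
    linarith
  have hl2 : y - y ^ 2 ≤ Real.log (1 + y) := by
    have hy2 : 0 < 1 + y := by linarith
    refine le_trans ?_ (Real.one_sub_inv_le_log_of_pos hy2)
    have h1 : (1 + y)⁻¹ ≤ 1 - y + y ^ 2 := by
      rw [inv_le_iff_one_le_mul₀ hy2]
      nlinarith [pow_pos hy0 3]
    linarith
  have hA : (1 - x) ^ i * (1 + y) ^ j =
      Real.exp (i * Real.log (1 - x) + j * Real.log (1 + y)) := by
    rw [Real.exp_add, ← Real.log_pow, ← Real.log_pow, Real.exp_log (pow_pos hx2 _),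
      Real.exp_log (pow_pos (by linarith) _)]
  have hB : (i : ℝ) * (-x - 2 * x ^ 2) + j * (y - y ^ 2) ≤ (1 - x) ^ i * (1 + y) ^ j := by
    rw [hA]
    have h1 := Real.add_one_le_exp ((i : ℝ) * Real.log (1 - x) + j * Real.log (1 + y))
    have h2 := mul_le_mul_of_nonneg_left hl1 hi
    have h3 := mul_le_mul_of_nonneg_left hl2 hj
    linarith
  rw [← hx, ← hy]
  have hc : 0 < p * (1 - p) / s := by positivity
  have hC := mul_le_mul_of_nonneg_left hB hc.le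
  have e1 : p * (1 - p) / s * ((i : ℝ) * (-x - 2 * x ^ 2) + j * (y - y ^ 2)) =
      p * j - (1 - p) * i - (2 * s * (1 - p) / p * i + s * p / (1 - p) * j) := by
    rw [hx, hy]
    field_simp
    ring
  rw [e1] at hC
  have e2 : 2 * s * (1 - p) / p ≤ 2 * s / (p * (1 - p)) := by
    rw [div_le_div_iff₀ hp0 (by positivity)]
    have : (1 - p) * (1 - p) ≤ 1 := by nlinarith
    have h3 : 0 < 2 * s * p := by positivity
    nlinarith
  have e3 : s * p / (1 - p) ≤ 2 * s / (p * (1 - p)) := by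
    rw [div_le_div_iff₀ hq (by positivity)]
    have h3 : 0 < s * (1 - p) := by positivity
    have h4 : p * p ≤ 2 := by nlinarith
    nlinarith
  have e4 := mul_le_mul_of_nonneg_right e2 hi
  have e5 := mul_le_mul_of_nonneg_right e3 hj
  rw [mul_add]
  linarith

end IPC.U
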