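import Pool.Agent.Lib.MP_25e40f_pr.U.Cnt
import Pool.Agent.Lib.MP_25e40f_pr.U.Log

/-!
# Stream U, job Av: the expected number of closed edges between two different clusters of `B` (about 90 lines)

Aizenman-Kesten-Newman in the form of Gandolfi-Grimmett-Russo and Cerf, with an exponential change of measure.  Let `q = p (1-p)`, `a = 1 - s/p ≥ 1/2`, `b = 1 + s/(1-p)`, so `p a + (1-p) b = 1`.  For every `ω ⊆ E` (`N_o = nop E ω`, `N_c = ncl E ω`):
  `p #two ≤ p (∑_C N_c(C) - N_c(Cl ω B))` (`le_sum_ncl`) `≤ ∑_C (p N_c(C) - (1-p) N_o(C)) - (p N_c(Cl ω B) - (1-p) N_o(Cl ω B))` (`sum_nop_le`)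
  `≤ ∑_C [(q/s) a^{N_o(C)} b^{N_c(C)} + (2s/q) (N_o(C) + N_c(C))] - (...)` (`key_ineq`) `≤ (q/s) ∑_{x ∈ B} a^{N_o(Cl ω {x})} b^{N_c(Cl ω {x})} + (2s/q) (2 #E) - (...)` (`sum_cls_le`, `sum_all_le`).
Take `EE p E`: `EE_mono`, `EE_add`, `EE_sub`, `EE_const_mul`, `EE_sum`, `EE_const`, `explore_exp` with `X = {x}` (each term is `1`), `explore_lin` with `X = B` (it is `0`).
-/

set_option autoImplicit false

noncomputable section

open Finset
open scoped Classical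

namespace IPC.U

variable {V : Type} [DecidableEq V]

private theorem Av_point {p s : ℝ} (hp0 : 0 < p) (hp1 : p < 1) (hs0 : 0 < s) (hs : s ≤ p / 2)
    {E ω : Finset (Sym2 V)} (B : Finset V) (hω : ω ⊆ E) :
    p * ((two E B ω).card : ℝ) ≤
      (∑ x ∈ B, p * (1 - p) / s * ((1 - s / p) ^ nop E ω (Cl ω ({x} : Finset V)) *
        (1 + s / (1 - p)) ^ ncl E ω (Cl ω ({x} : Finset V)))) +
        2 * s / (p * (1 - p)) * (2 * (E.card : ℝ)) -
        (p * (ncl E ω (Cl ω B) : ℝ) - (1 - p) * (nop E ω (Cl ω B) : ℝ)) := by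
  have hq : 0 < 1 - p := by linarith
  have ha : 0 ≤ 1 - s / p := by
    have h1 : s / p ≤ 1 / 2 := by
      rw [div_le_iff₀ hp0]
      linarith
    linarith
  have hb : 0 ≤ 1 + s / (1 - p) := by
    have := div_nonneg hs0.le hq.le
    linarith
  have hqs : 0 ≤ p * (1 - p) / s := div_nonneg (mul_nonneg hp0.le hq.le) hs0.le
  have h2s : 0 ≤ 2 * s / (p * (1 - p)) := div_nonneg (by linarith) (mul_nonneg hp0.le hq.le)
  have e1 : (ncl E ω (Cl ω B) : ℝ) + ((two E B ω).card : ℝ) ≤ ∑ C ∈ cls B ω, (ncl E ω C : ℝ) := by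
    exact_mod_cast le_sum_ncl hω B
  have e2 : ∑ C ∈ cls B ω, (nop E ω C : ℝ) ≤ (nop E ω (Cl ω B) : ℝ) := by
    exact_mod_cast sum_nop_le hω B
  have e3 : ∑ C ∈ cls B ω, ((nop E ω C : ℝ) + (ncl E ω C : ℝ)) ≤ 2 * (E.card : ℝ) := by
    exact_mod_cast sum_all_le hω B
  have e4 := sum_cls_le B ω (fun C => p * (1 - p) / s * ((1 - s / p) ^ nop E ω C *
    (1 + s / (1 - p)) ^ ncl E ω C)) (fun C => mul_nonneg hqs (mul_nonneg (pow_nonneg ha _) (pow_nonneg hb _)))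
  have e5 : ∑ C ∈ cls B ω, (p * (ncl E ω C : ℝ) - (1 - p) * (nop E ω C : ℝ)) ≤
      ∑ C ∈ cls B ω, (p * (1 - p) / s * ((1 - s / p) ^ nop E ω C * (1 + s / (1 - p)) ^ ncl E ω C) +
        2 * s / (p * (1 - p)) * ((nop E ω C : ℝ) + (ncl E ω C : ℝ))) :=
    Finset.sum_le_sum fun C _ => key_ineq hp0 hp1 hs0 hs _ _
  rw [Finset.sum_add_distrib, ← Finset.mul_sum (s := cls B ω) (f := fun C => (nop E ω C : ℝ) + (ncl E ω C : ℝ)),
    Finset.sum_sub_distrib, ← Finset.mul_sum (s := cls B ω) (f := fun C => (ncl E ω C : ℝ)),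
    ← Finset.mul_sum (s := cls B ω) (f := fun C => (nop E ω C : ℝ))] at e5
  have e6 := mul_le_mul_of_nonneg_left e1 hp0.le
  have e7 := mul_le_mul_of_nonneg_left e2 hq.le
  have e8 := mul_le_mul_of_nonneg_left e3 h2s
  rw [mul_add] at e6
  linarith

theorem two_le {p s : ℝ} (hp0 : 0 < p) (hp1 : p < 1) (hs0 : 0 < s) (hs : s ≤ p / 2)
    (E : Finset (Sym2 V)) (B : Finset V) :
    p * EE p E (fun ω => ((two E B ω).card : ℝ)) ≤
      p * (1 - p) / s * (B.card : ℝ) + 2 * s / (p * (1 - p)) * (2 * (E.card : ℝ)) := by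
  have h1 : p * EE p E (fun ω => ((two E B ω).card : ℝ)) ≤ EE p E (fun ω =>
      (∑ x ∈ B, p * (1 - p) / s * ((1 - s / p) ^ nop E ω (Cl ω ({x} : Finset V)) *
        (1 + s / (1 - p)) ^ ncl E ω (Cl ω ({x} : Finset V)))) +
        2 * s / (p * (1 - p)) * (2 * (E.card : ℝ)) -
        (p * (ncl E ω (Cl ω B) : ℝ) - (1 - p) * (nop E ω (Cl ω B) : ℝ))) := by
    rw [← EE_const_mul]
    exact EE_mono hp0.le hp1.le E fun ω hω => Av_point hp0 hp1 hs0 hs B hω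
  refine h1.trans (le_of_eq ?_)
  have hab : p * (1 - s / p) + (1 - p) * (1 + s / (1 - p)) = 1 := by
    have hp : p ≠ 0 := hp0.ne'
    have hq : (1 - p) ≠ 0 := by linarith
    field_simp
    ring
  rw [EE_sub p E (fun ω => (∑ x ∈ B, p * (1 - p) / s * ((1 - s / p) ^ nop E ω (Cl ω ({x} : Finset V)) *
        (1 + s / (1 - p)) ^ ncl E ω (Cl ω ({x} : Finset V)))) +
        2 * s / (p * (1 - p)) * (2 * (E.card : ℝ)))
        (fun ω => p * (ncl E ω (Cl ω B) : ℝ) - (1 - p) * (nop E ω (Cl ω B) : ℝ)),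
    explore_lin, sub_zero,
    EE_add p E (fun ω => ∑ x ∈ B, p * (1 - p) / s * ((1 - s / p) ^ nop E ω (Cl ω ({x} : Finset V)) *
        (1 + s / (1 - p)) ^ ncl E ω (Cl ω ({x} : Finset V)))) (fun _ => 2 * s / (p * (1 - p)) * (2 * (E.card : ℝ))),
    EE_const,
    EE_sum p E B (fun x ω => p * (1 - p) / s * ((1 - s / p) ^ nop E ω (Cl ω ({x} : Finset V)) *
        (1 + s / (1 - p)) ^ ncl E ω (Cl ω ({x} : Finset V))))]
  congr 1
  have h2 : ∀ x ∈ B, EE p E (fun ω => p * (1 - p) / s * ((1 - s / p) ^ nop E ω (Cl ω ({x} : Finset V)) *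
        (1 + s / (1 - p)) ^ ncl E ω (Cl ω ({x} : Finset V)))) = p * (1 - p) / s := by
    intro x _
    rw [EE_const_mul, explore_exp p _ _ hab, mul_one]
  rw [Finset.sum_congr rfl h2, Finset.sum_const, nsmul_eq_mul, mul_comm]

end IPC.U
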