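import Pool.Agent.Lib.MP_25e40f_pr.U.Cnt
import Pool.Agent.Lib.MP_25e40f_pr.S.Nrm
import Pool.Agent.Lib.MP_25e40f_pr.T.Arm

/-!
# Stream U, job Trn: two arms, comparison of a big box with a small box (about 150 lines)

`arm2 G p x y r`: in `ein (Lam (r+1))` both `x` and `y` are connected to `Lam (r+1) \ Lam r` and they are not connected to each other.

`exitB`: `ω ⊆ ein D`, `u ∈ Lam (m+1)`, `z ∉ Lam (m+1)`, `Conn ω u z`: there is `b ∈ Lam (m+1) \ Lam m` with `Conn (ω ∩ ein (Lam (m+1))) u b`.  `Conn_exit_edge` with `X = Lam (m+1)`: `s(a, c) ∈ ω`, `a ∈ X`, `c ∉ X`, so `c ∈ nb a` (`mem_ein`), hence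
`a ∉ Lam m` (`G.step`); the connection from `u` to `a` uses only edges of `ω` inside `X` (`filter_inside`); `b = a`.

`arm2_le_two`: let `w = y - x`, `a = u - x`, `Λ = Lam (m+1)`, `D' = (Lam (r+1)).image (a + ·)`.  `Pr_iso` with `φ = Equiv.addLeft a` (`nb_addLeft`): `arm2 = Pr p (ein D') (event')` where event' is: `u = a + x` and `u + w = a + y` are connected in `ω` to
`D' \ (a + Lam r)` and not to each other (apply `Pr_iso` from right to left, i.e. to the event `A' ω' = (∃ z ∈ D' \ .., Conn ω' u z) ∧ (..) ∧ ¬ Conn ω' u (u+w)` and use `Conn_image` for the images; `φ` injective).  If `nrm x ≤ k`, `nrm u ≤ m + 1`, then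
`nrm a ≤ m + 1 + k`; a point `z` of `D' \ (a + Lam r)` is `a + z'` with `nrm z' = r + 1`, so `nrm z ≥ r + 1 - (m + 1 + k) > m + 1` as `2 m + 2 + k ≤ r`; so `z ∉ Λ`.  And `Λ ⊆ D'` (`nrm (z - a) ≤ m + 1 + m + 1 + k ≤ r + 1`).
So event' implies, for `ω ⊆ ein D'`, the event `A (ω ∩ ein Λ)` where `A ω = (s(u, u+w) ∈ two (ein Λ) (Λ \ Lam m) ω)`: `u, u + w ∈ Cl (ω ∩ ein Λ) (Λ \ Lam m)` by `exitB` and `Conn_symm`; not connected in `ω ∩ ein Λ` (`Conn_mono`); `s(u, u+w) ∈ ein Λ`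
(`mem_ein`, `nb_trans`) and `∉ ω` (otherwise `Conn_edge`).  Finally `Pr p (ein D') (fun ω => A (ω ∩ ein Λ)) = Pr p (ein Λ) A` (`Pr_restrict` for the event `fun ω => A (ω ∩ ein Λ)`, `ein_mono`, and `Pr_congr`: `ω ∩ ein Λ = ω` for `ω ⊆ ein Λ`).
-/

set_option autoImplicit false

noncomputable section

open Finset
open scoped Classical

namespace IPC.U

variable {V : Type} [DecidableEq V]

/-- two disjoint arms -/
def arm2 (G : PG V) (p : ℝ) (x y : V) (r : ℕ) : ℝ :=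
  Pr p (G.ein (G.Lam (r + 1))) (fun ω => (∃ z ∈ G.Lam (r + 1) \ G.Lam r, Conn ω x z) ∧
    (∃ z ∈ G.Lam (r + 1) \ G.Lam r, Conn ω y z) ∧ ¬ Conn ω x y)

theorem exitB (G : PG V) {D : Finset V} {ω : Finset (Sym2 V)} (hω : ω ⊆ G.ein D) {m : ℕ} {u z : V}
    (hu : u ∈ G.Lam (m + 1)) (hz : z ∉ G.Lam (m + 1)) (h : Conn ω u z) :
    ∃ b ∈ G.Lam (m + 1) \ G.Lam m, Conn (ω ∩ G.ein (G.Lam (m + 1))) u b := by
  obtain ⟨a, b, ha, hb, hab, hc⟩ := Conn_exit_edge (G.Lam (m + 1) : Set V)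
    (Finset.mem_coe.2 hu) (fun h => hz (Finset.mem_coe.1 h)) h
  have hnb : b ∈ G.nb a := ((IPC.T.mem_ein G).1 (hω hab)).1
  have ham : a ∉ G.Lam m := by
    intro h1
    exact hb (Finset.mem_coe.2 (G.step m a h1 hnb))
  refine ⟨a, Finset.mem_sdiff.2 ⟨Finset.mem_coe.1 ha, ham⟩, Conn_mono ?_ hc⟩
  intro e he
  rw [← IPC.T.filter_inside G hω, Finset.mem_filter]
  rw [Finset.mem_filter] at he
  exact ⟨he.1, fun c hc => Finset.mem_coe.1 (he.2 c hc)⟩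

theorem arm2_le_two {d : ℕ} {p : ℝ} (h0 : 0 ≤ p) (h1 : p ≤ 1) {x y : Fin d → ℤ}
    (hxy : y ∈ (Zg d).nb x) {k m r : ℕ} (hx : S.nrm x ≤ k) (hr : 2 * m + 2 + k ≤ r)
    {u : Fin d → ℤ} (hu : u ∈ (Zg d).Lam m) :
    arm2 (Zg d) p x y r ≤ Pr p ((Zg d).ein ((Zg d).Lam (m + 1)))
      (fun ω => s(u, u + (y - x)) ∈
        two ((Zg d).ein ((Zg d).Lam (m + 1))) ((Zg d).Lam (m + 1) \ (Zg d).Lam m) ω) := by
  obtain ⟨φ, hφ⟩ : ∃ φ : (Fin d → ℤ) ≃ (Fin d → ℤ), φ = Equiv.addLeft (u - x) := ⟨_, rfl⟩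
  have hφa : ∀ z, φ z = (u - x) + z := fun z => by rw [hφ]; rfl
  have hnbφ : ∀ a b, b ∈ (Zg d).nb a ↔ φ b ∈ (Zg d).nb (φ a) := by
    intro a b
    rw [hφ]
    exact S.nb_addLeft (u - x) a b
  have hφx : φ x = u := by rw [hφa, sub_add_cancel]
  have hφy : φ y = u + (y - x) := by rw [hφa]; abel
  -- norms
  have hun : S.nrm u ≤ m := S.mem_Lam.1 hu
  have han : S.nrm (u - x) ≤ m + k := by
    have h2 := S.nrm_sub_le u 0 x
    rw [sub_zero, zero_sub, S.nrm_neg] at h2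
    omega
  have hT' : ∀ z ∈ ((Zg d).Lam (r + 1) \ (Zg d).Lam r).image φ, z ∉ (Zg d).Lam (m + 1) := by
    intro z hz hz2
    obtain ⟨z', hz', rfl⟩ := Finset.mem_image.1 hz
    have h3 := (Finset.mem_sdiff.1 hz').2
    rw [S.mem_Lam] at h3 hz2
    rw [hφa] at hz2
    have h4 := S.nrm_add (-(u - x)) ((u - x) + z')
    rw [S.nrm_neg, neg_add_cancel_left] at h4
    omega
  have hΛ : (Zg d).Lam (m + 1) ⊆ ((Zg d).Lam (r + 1)).image φ := by
    intro z hz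
    rw [S.mem_Lam] at hz
    refine Finset.mem_image.2 ⟨z - (u - x), ?_, ?_⟩
    · rw [S.mem_Lam]
      have h3 := S.nrm_add z (-(u - x))
      rw [S.nrm_neg, ← sub_eq_add_neg] at h3
      omega
    · rw [hφa]
      abel
  have huΛ : u ∈ (Zg d).Lam (m + 1) := (Zg d).mono m hu
  have hwnb : u + (y - x) ∈ (Zg d).nb u := by
    have h2 := (hnbφ x y).1 hxy
    rwa [hφx, hφy] at h2
  have hwΛ : u + (y - x) ∈ (Zg d).Lam (m + 1) := (Zg d).step m u hu hwnb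
  -- the event after translation
  have e1 : arm2 (Zg d) p x y r = Pr p ((Zg d).ein (((Zg d).Lam (r + 1)).image φ))
      (fun ω => (∃ z ∈ ((Zg d).Lam (r + 1) \ (Zg d).Lam r).image φ, Conn ω u z) ∧
        (∃ z ∈ ((Zg d).Lam (r + 1) \ (Zg d).Lam r).image φ, Conn ω (u + (y - x)) z) ∧
        ¬ Conn ω u (u + (y - x))) := by
    rw [IPC.T.Pr_iso (Zg d) (Zg d) p φ hnbφ]
    unfold arm2
    refine Pr_congr p _ fun ω _ => ?_
    have hex : ∀ v, (∃ z ∈ (Zg d).Lam (r + 1) \ (Zg d).Lam r, Conn ω v z) ↔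
        (∃ z ∈ ((Zg d).Lam (r + 1) \ (Zg d).Lam r).image φ,
          Conn (ω.image (Sym2.map φ)) (φ v) z) := by
      intro v
      constructor
      · rintro ⟨z, hz, hc⟩
        exact ⟨φ z, Finset.mem_image_of_mem φ hz, (Conn_image φ φ.injective ω v z).2 hc⟩
      · rintro ⟨z, hz, hc⟩
        obtain ⟨z', hz', rfl⟩ := Finset.mem_image.1 hz
        exact ⟨z', hz', (Conn_image φ φ.injective ω v z').1 hc⟩
    rw [hex x, hex y, ← Conn_image φ φ.injective ω x y, hφx, hφy]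
  rw [e1]
  have e2 : Pr p ((Zg d).ein ((Zg d).Lam (m + 1)))
      (fun ω => s(u, u + (y - x)) ∈
        two ((Zg d).ein ((Zg d).Lam (m + 1))) ((Zg d).Lam (m + 1) \ (Zg d).Lam m) ω) =
      Pr p ((Zg d).ein (((Zg d).Lam (r + 1)).image φ))
      (fun ω => s(u, u + (y - x)) ∈
        two ((Zg d).ein ((Zg d).Lam (m + 1))) ((Zg d).Lam (m + 1) \ (Zg d).Lam m)
          (ω ∩ (Zg d).ein ((Zg d).Lam (m + 1)))) := by
    rw [Pr_restrict p (IPC.T.ein_mono (Zg d) hΛ) (fun ω => s(u, u + (y - x)) ∈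
        two ((Zg d).ein ((Zg d).Lam (m + 1))) ((Zg d).Lam (m + 1) \ (Zg d).Lam m)
          (ω ∩ (Zg d).ein ((Zg d).Lam (m + 1))))]
    · refine Pr_congr p _ fun ω hω => ?_
      rw [Finset.inter_eq_left.2 hω]
    · intro ω _
      rw [Finset.inter_assoc, Finset.inter_self]
  rw [e2]
  refine Pr_mono h0 h1 _ fun ω hω => ?_
  rintro ⟨⟨z1, hz1, hc1⟩, ⟨z2, hz2, hc2⟩, hnc⟩
  obtain ⟨b1, hb1, hcb1⟩ := exitB (Zg d) hω huΛ (hT' z1 hz1) hc1
  obtain ⟨b2, hb2, hcb2⟩ := exitB (Zg d) hω hwΛ (hT' z2 hz2) hc2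
  unfold two
  rw [Finset.mem_filter, Finset.mem_sdiff]
  refine ⟨⟨(IPC.T.mem_ein (Zg d)).2 ⟨hwnb, huΛ, hwΛ⟩, ?_⟩,
    u, u + (y - x), rfl, ⟨b1, hb1, Conn_symm hcb1⟩, ⟨b2, hb2, Conn_symm hcb2⟩, ?_⟩
  · intro hmem
    exact hnc (Conn_edge (Finset.mem_inter.1 hmem).1)
  · intro hc
    exact hnc (Conn_mono Finset.inter_subset_left hc)

end IPC.U
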