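import Pool.Agent.Lib.MP_25e40f_pr.U.Av
import Pool.Agent.Lib.MP_25e40f_pr.U.Trn

/-!
# Stream U, job Avg: the two arm probability of an edge tends to zero (about 160 lines)

Let `w = y - x`, `nrm w = 1`, `w ≠ 0`.  Fix `m`, `Λ = Lam (m+1)`, `E = ein Λ`, `B = Λ \ Lam m`.  The edges `s(u, u + w)`, `u ∈ Lam m`, are distinct (`Sym2.eq_iff`: `u = u'`, or `u = u' + w` and `u + w = u'`, then `2 w = 0`), so
`∑_{u ∈ Lam m} ind (s(u, u+w) ∈ two E B ω) ≤ #two E B ω`.  With `arm2_le_two` and `two_le`: for `r ≥ 2 m + 2 + k`, `k = nrm x`: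
  `p (2m+1)^d arm2(r) ≤ (q/s) ((2m+3)^d - (2m+1)^d) + (2s/q) 2 #E`, `#E ≤ 2 d (2m+3)^d` (`ein D = biUnion of images of nb a ∩ D`: `Finset.card_biUnion_le`, `Finset.card_image_le`, `card_nb_le`, `card_Lam`).
`avg_bound`: divide by `(2m+1)^d > 0`, `(2m+3)^d ≤ 3^d (2m+1)^d`.
`arm2_nb_tendsto`: given `ε > 0` choose `s ∈ (0, p/2]` with `(4s/q) 2 d 3^d ≤ p ε / 2`, then `m` with `(q/s) (((2m+3)/(2m+1))^d - 1) ≤ p ε / 2` (the left side tends to `0`: `((2m+3)/(2m+1)) = 1 + 2/(2m+1) → 1`, continuity of the power); then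
`arm2 (r) ≤ ε` for all `r ≥ 2m + 2 + k`.  `arm2 ≥ 0` by `Pr_nonneg`.
-/

set_option autoImplicit false

noncomputable section

open Finset
open scoped Classical

namespace IPC.U

private theorem Avg_ind_sum {V : Type} [DecidableEq V] (S : Finset V) (T : Finset (Sym2 V)) (g : V → Sym2 V)
    (hg : ∀ a ∈ S, ∀ b ∈ S, g a = g b → a = b) : ∑ u ∈ S, ind (g u ∈ T) ≤ (T.card : ℝ) := by
  have h1 : ∑ u ∈ S, ind (g u ∈ T) = ((S.filter (fun u => g u ∈ T)).card : ℝ) := by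
    rw [Finset.card_filter, Nat.cast_sum]
    refine Finset.sum_congr rfl (fun u _ => ?_)
    by_cases h : g u ∈ T
    · rw [ind_of h, if_pos h, Nat.cast_one]
    · rw [ind_not h, if_neg h, Nat.cast_zero]
  rw [h1]
  have h2 : (S.filter (fun u => g u ∈ T)).card ≤ T.card := by
    refine Finset.card_le_card_of_injOn g ?_ ?_
    · intro u hu
      exact (Finset.mem_filter.1 (Finset.mem_coe.1 hu)).2
    · intro a ha b hb hab
      exact hg a (Finset.mem_filter.1 (Finset.mem_coe.1 ha)).1 b (Finset.mem_filter.1 (Finset.mem_coe.1 hb)).1 hab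
  exact_mod_cast h2

private theorem Avg_inj {d : ℕ} {w : Fin d → ℤ} (hw : w ≠ 0) (a b : Fin d → ℤ)
    (h : s(a, a + w) = s(b, b + w)) : a = b := by
  rw [Sym2.eq_iff] at h
  rcases h with h | h
  · exact h.1
  · exfalso
    apply hw
    funext i
    have h1 := congrFun h.1 i
    have h2 := congrFun h.2 i
    rw [Pi.add_apply] at h1 h2
    rw [Pi.zero_apply]
    omega

private theorem Avg_ratio (d : ℕ) : Filter.Tendsto
    (fun m : ℕ => (((2 * m + 3 : ℕ) : ℝ) / ((2 * m + 1 : ℕ) : ℝ)) ^ d) Filter.atTop (nhds 1) := by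
  have h1 : Filter.Tendsto (fun m : ℕ => (2 : ℝ) / ((2 * m + 1 : ℕ) : ℝ)) Filter.atTop (nhds 0) := by
    have h2 : Filter.Tendsto (fun m : ℕ => 2 * m + 1) Filter.atTop Filter.atTop :=
      Filter.tendsto_atTop_mono (fun m => by show m ≤ 2 * m + 1; omega) Filter.tendsto_id
    exact (tendsto_const_div_atTop_nhds_zero_nat (2 : ℝ)).comp h2
  have h3 := (h1.const_add 1).pow d
  rw [add_zero, one_pow] at h3
  refine h3.congr (fun m => ?_)
  have h4 : (0 : ℝ) < ((2 * m + 1 : ℕ) : ℝ) := by positivity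
  have h5 : (1 : ℝ) + 2 / ((2 * m + 1 : ℕ) : ℝ) = ((2 * m + 3 : ℕ) : ℝ) / ((2 * m + 1 : ℕ) : ℝ) := by
    rw [eq_div_iff h4.ne', add_mul, div_mul_cancel₀ _ h4.ne']
    push_cast
    ring
  rw [h5]

theorem card_ein_le {d : ℕ} (r : ℕ) :
    ((Zg d).ein ((Zg d).Lam r)).card ≤ 2 * d * (2 * r + 1) ^ d := by
  unfold PG.ein
  refine Finset.card_biUnion_le.trans ?_
  have h1 : ∀ a ∈ (Zg d).Lam r, (((Zg d).nb a ∩ (Zg d).Lam r).image fun b => s(a, b)).card ≤ 2 * d := by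
    intro a _
    exact Finset.card_image_le.trans ((Finset.card_le_card Finset.inter_subset_left).trans (S.card_nb_le a))
  refine (Finset.sum_le_sum h1).trans (le_of_eq ?_)
  rw [Finset.sum_const, S.card_Lam, smul_eq_mul, mul_comm]

theorem avg_bound {d : ℕ} {p s : ℝ} (hp0 : 0 < p) (hp1 : p < 1) (hs0 : 0 < s) (hs : s ≤ p / 2)
    {x y : Fin d → ℤ} (hxy : y ∈ (Zg d).nb x) {k m r : ℕ} (hx : S.nrm x ≤ k)
    (hr : 2 * m + 2 + k ≤ r) :
    p * arm2 (Zg d) p x y r ≤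
      p * (1 - p) / s * ((((2 * m + 3 : ℕ) : ℝ) / ((2 * m + 1 : ℕ) : ℝ)) ^ d - 1) +
        4 * s / (p * (1 - p)) * (2 * d * 3 ^ d) := by
  have hw : y - x ≠ 0 := by
    intro h
    have h1 := S.nrm_nb hxy
    rw [h, S.nrm_zero] at h1
    exact absurd h1 (by norm_num)
  have hq : 0 < p * (1 - p) := mul_pos hp0 (by linarith)
  have hA : ((2 * m + 1 : ℕ) : ℝ) ^ d * arm2 (Zg d) p x y r ≤
      EE p ((Zg d).ein ((Zg d).Lam (m + 1))) (fun ω =>
        ((two ((Zg d).ein ((Zg d).Lam (m + 1))) ((Zg d).Lam (m + 1) \ (Zg d).Lam m) ω).card : ℝ)) := by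
    have h1 : ∑ u ∈ (Zg d).Lam m, arm2 (Zg d) p x y r ≤ ∑ u ∈ (Zg d).Lam m,
        Pr p ((Zg d).ein ((Zg d).Lam (m + 1))) (fun ω => s(u, u + (y - x)) ∈
          two ((Zg d).ein ((Zg d).Lam (m + 1))) ((Zg d).Lam (m + 1) \ (Zg d).Lam m) ω) :=
      Finset.sum_le_sum (fun u hu => arm2_le_two hp0.le hp1.le hxy hx hr hu)
    have h2 : ∑ u ∈ (Zg d).Lam m,
        Pr p ((Zg d).ein ((Zg d).Lam (m + 1))) (fun ω => s(u, u + (y - x)) ∈
          two ((Zg d).ein ((Zg d).Lam (m + 1))) ((Zg d).Lam (m + 1) \ (Zg d).Lam m) ω) ≤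
        EE p ((Zg d).ein ((Zg d).Lam (m + 1))) (fun ω =>
        ((two ((Zg d).ein ((Zg d).Lam (m + 1))) ((Zg d).Lam (m + 1) \ (Zg d).Lam m) ω).card : ℝ)) := by
      unfold Pr
      rw [← EE_sum]
      refine EE_mono hp0.le hp1.le _ (fun ω _ => ?_)
      exact Avg_ind_sum _ _ (fun u => s(u, u + (y - x))) (fun a _ b _ h => Avg_inj hw a b h)
    rw [Finset.sum_const, S.card_Lam, nsmul_eq_mul, Nat.cast_pow] at h1
    exact h1.trans h2
  have hB := two_le hp0 hp1 hs0 hs ((Zg d).ein ((Zg d).Lam (m + 1))) ((Zg d).Lam (m + 1) \ (Zg d).Lam m)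
  have hcB : ((((Zg d).Lam (m + 1) \ (Zg d).Lam m).card : ℕ) : ℝ) =
      ((2 * m + 3 : ℕ) : ℝ) ^ d - ((2 * m + 1 : ℕ) : ℝ) ^ d := by
    have h1 := Finset.card_sdiff_add_card_eq_card ((Zg d).mono m)
    rw [S.card_Lam, S.card_Lam] at h1
    have h2 : 2 * (m + 1) + 1 = 2 * m + 3 := by ring
    rw [h2] at h1
    have h3 : ((((Zg d).Lam (m + 1) \ (Zg d).Lam m).card : ℕ) : ℝ) + ((2 * m + 1 : ℕ) : ℝ) ^ d =
        ((2 * m + 3 : ℕ) : ℝ) ^ d := by exact_mod_cast h1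
    linarith
  have hcE : ((((Zg d).ein ((Zg d).Lam (m + 1))).card : ℕ) : ℝ) ≤ 2 * d * ((2 * m + 3 : ℕ) : ℝ) ^ d := by
    have h1 := card_ein_le (d := d) (m + 1)
    have h2 : 2 * (m + 1) + 1 = 2 * m + 3 := by ring
    rw [h2] at h1
    exact_mod_cast h1
  rw [hcB] at hB
  have hN : (0 : ℝ) < ((2 * m + 1 : ℕ) : ℝ) ^ d := by positivity
  have hMN : ((2 * m + 3 : ℕ) : ℝ) ^ d ≤ 3 ^ d * ((2 * m + 1 : ℕ) : ℝ) ^ d := by
    rw [← mul_pow]
    refine pow_le_pow_left₀ (by positivity) ?_ d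
    push_cast
    linarith [(Nat.cast_nonneg m : (0 : ℝ) ≤ (m : ℝ))]
  rw [div_pow]
  generalize ((2 * m + 1 : ℕ) : ℝ) ^ d = N at *
  generalize ((2 * m + 3 : ℕ) : ℝ) ^ d = M at *
  generalize EE p ((Zg d).ein ((Zg d).Lam (m + 1))) (fun ω =>
        ((two ((Zg d).ein ((Zg d).Lam (m + 1))) ((Zg d).Lam (m + 1) \ (Zg d).Lam m) ω).card : ℝ)) = Z at *
  generalize arm2 (Zg d) p x y r = a at *
  generalize ((((Zg d).ein ((Zg d).Lam (m + 1))).card : ℕ) : ℝ) = c at *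
  have hd0 : (0 : ℝ) ≤ 2 * d := by positivity
  have h1 : 2 * s / (p * (1 - p)) * (2 * c) ≤ 2 * s / (p * (1 - p)) * (2 * (2 * d * (3 ^ d * N))) := by
    refine mul_le_mul_of_nonneg_left ?_ (by positivity)
    have h2 := mul_le_mul_of_nonneg_left hMN hd0
    linarith
  have h3 : p * (N * a) ≤ p * Z := mul_le_mul_of_nonneg_left hA hp0.le
  have h4 : p * a * N ≤ (p * (1 - p) / s * (M / N - 1) + 4 * s / (p * (1 - p)) * (2 * d * 3 ^ d)) * N := by
    have e1 : (p * (1 - p) / s * (M / N - 1) + 4 * s / (p * (1 - p)) * (2 * d * 3 ^ d)) * N =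
        p * (1 - p) / s * (M - N) + 2 * s / (p * (1 - p)) * (2 * (2 * d * (3 ^ d * N))) := by
      have e2 : M / N * N = M := div_mul_cancel₀ _ hN.ne'
      linear_combination (p * (1 - p) / s) * e2
    rw [e1]
    linarith
  exact le_of_mul_le_mul_right h4 hN

theorem arm2_nb_tendsto {d : ℕ} {p : ℝ} (hp0 : 0 < p) (hp1 : p < 1) {x y : Fin d → ℤ}
    (hxy : y ∈ (Zg d).nb x) :
    Filter.Tendsto (arm2 (Zg d) p x y) Filter.atTop (nhds 0) := by
  have hq : 0 < p * (1 - p) := mul_pos hp0 (by linarith)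
  rw [Metric.tendsto_atTop]
  intro ε hε
  have hA0 : (0 : ℝ) ≤ 2 * d * 3 ^ d := by positivity
  obtain ⟨s, hs⟩ : ∃ s : ℝ, s = min (p / 2) (p * ε * (p * (1 - p)) / (16 * (2 * d * 3 ^ d + 1))) := ⟨_, rfl⟩
  have hs0 : 0 < s := by
    rw [hs]
    exact lt_min (by linarith) (by positivity)
  have hs1 : s ≤ p / 2 := by rw [hs]; exact min_le_left _ _
  have hs2 : 4 * s / (p * (1 - p)) * (2 * d * 3 ^ d) ≤ p * ε / 4 := by
    have h1 : s ≤ p * ε * (p * (1 - p)) / (16 * (2 * d * 3 ^ d + 1)) := by rw [hs]; exact min_le_right _ _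
    rw [le_div_iff₀ (by positivity)] at h1
    have h2 : 4 * s / (p * (1 - p)) * (2 * d * 3 ^ d) = 4 * s * (2 * d * 3 ^ d) / (p * (1 - p)) := by ring
    rw [h2, div_le_iff₀ hq]
    linarith
  have h3 : Filter.Tendsto (fun m : ℕ => p * (1 - p) / s *
      ((((2 * m + 3 : ℕ) : ℝ) / ((2 * m + 1 : ℕ) : ℝ)) ^ d - 1)) Filter.atTop (nhds 0) := by
    have h4 := ((Avg_ratio d).sub_const 1).const_mul (p * (1 - p) / s)
    rwa [sub_self, mul_zero] at h4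
  obtain ⟨m, hm⟩ := (h3.eventually (gt_mem_nhds (show (0 : ℝ) < p * ε / 4 by positivity))).exists
  refine ⟨2 * m + 2 + S.nrm x, fun r hr => ?_⟩
  have h5 := avg_bound hp0 hp1 hs0 hs1 hxy (le_refl (S.nrm x)) hr
  have h6 : 0 ≤ arm2 (Zg d) p x y r := Pr_nonneg hp0.le hp1.le _ _
  rw [Real.dist_eq, sub_zero, abs_of_nonneg h6]
  have h7 : p * arm2 (Zg d) p x y r ≤ p * (ε / 2) := by linarith
  have h8 := le_of_mul_le_mul_left h7 hp0
  linarith

end IPC.U
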