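import Pool.Agent.Lib.MP_25e40f_pr.U.Exp

/-!
# Stream U, job Cnt: deterministic counting of edges touching the clusters of `B` (about 180 lines)

`cls B ω` = the finite set of the clusters `Cl ω {x}`, `x ∈ B` (a `Finset (Set V)`).  `two E B ω` = closed edges joining two different clusters which meet `B`.

* `cls_unique`: `Cl ω {x}` and `Cl ω {y}` are equal if they have a common point (`Conn_symm`, `Conn_trans`).  So if `a ∈ C ∈ cls B ω` then `C = Cl ω {a}`.
* `sum_nop_le`: for `C ∈ cls` an open edge touching `C` has both endpoints in `C`; so the sets `ω ∩ tch E C` are pairwise disjoint (`cls_unique`), contained in `ω ∩ tch E (Cl ω B)` (`C ⊆ Cl ω B`): `Finset.card_biUnion`, `Finset.card_le_card`.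
* `le_sum_ncl`: `∑_{C} (tch E C \ ω).card = ∑_{e ∈ E \ ω} #{C ∈ cls | e touches C}` (write cardinalities as sums of indicators, `Finset.card_filter`, `Finset.sum_comm`; or `Finset.sum_card_bipartiteAbove_eq_sum_card_bipartiteBelow`).
  Every `e ∈ tch E (Cl ω B) \ ω` touches at least one `C` (an endpoint `a ∈ Cl ω B` is connected to some `x ∈ B`, `C = Cl ω {x}`), and if `e ∈ two E B ω`, `e = s(a, b)`, the clusters of `a` and `b` are two different members of `cls` touched
  by `e`.  (`two E B ω ⊆ tch E (Cl ω B) \ ω`.)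
* `sum_all_le`: `nop + ncl = (tch E C).card`, `∑_C (tch E C).card = ∑_{e ∈ E} #{C | e touches C}` and for `e = s(a, b)` the filtered set is contained in `{Cl ω {a}, Cl ω {b}}`, of cardinality at most `2`.
* `sum_cls_le`: `∑_{C ∈ B.image f} F C ≤ ∑_{x ∈ B} F (f x)` for `F ≥ 0`  (`Finset.sum_image_le_of_nonneg`, or induction on `B`, or `Finset.sum_fiberwise_of_maps_to` with each fibre nonempty).
-/

set_option autoImplicit false

noncomputable section

open Finset
open scoped Classical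

namespace IPC.U

variable {V : Type} [DecidableEq V]

/-- the clusters of the points of `B` -/
def cls (B : Finset V) (ω : Finset (Sym2 V)) : Finset (Set V) := B.image fun x => Cl ω {x}

/-- closed edges of `E` joining two different clusters which meet `B` -/
def two (E : Finset (Sym2 V)) (B : Finset V) (ω : Finset (Sym2 V)) : Finset (Sym2 V) :=
  (E \ ω).filter fun e => ∃ a b, e = s(a, b) ∧ a ∈ Cl ω B ∧ b ∈ Cl ω B ∧ ¬ Conn ω a b

private theorem Cnt_mem {ω : Finset (Sym2 V)} {x y : V} : y ∈ Cl ω {x} ↔ Conn ω x y := by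
  constructor
  · rintro ⟨f, hf, h⟩
    rw [Finset.mem_singleton] at hf
    rw [← hf]
    exact h
  · intro h
    exact ⟨x, Finset.mem_singleton_self _, h⟩

private theorem Cnt_ex {B : Finset V} {ω : Finset (Sym2 V)} {C : Set V} (hC : C ∈ cls B ω) :
    ∃ x ∈ B, C = Cl ω {x} := by
  unfold cls at hC
  rw [Finset.mem_image] at hC
  obtain ⟨x, hx, h⟩ := hC
  exact ⟨x, hx, h.symm⟩

private theorem Cnt_closed {B : Finset V} {ω : Finset (Sym2 V)} {C : Set V} (hC : C ∈ cls B ω) {a b : V}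
    (ha : a ∈ C) (hab : Conn ω a b) : b ∈ C := by
  obtain ⟨x, _, rfl⟩ := Cnt_ex hC
  exact Cnt_mem.2 (Conn_trans (Cnt_mem.1 ha) hab)

private theorem Cnt_in {B : Finset V} {ω : Finset (Sym2 V)} {a : V} (ha : a ∈ Cl ω B) :
    ∃ C ∈ cls B ω, a ∈ C := by
  obtain ⟨x, hx, h⟩ := ha
  exact ⟨Cl ω {x}, Finset.mem_image_of_mem _ hx, Cnt_mem.2 h⟩

private theorem Cnt_sub {B : Finset V} {ω : Finset (Sym2 V)} {C : Set V} (hC : C ∈ cls B ω) :
    C ⊆ Cl ω B := by
  obtain ⟨x, hx, rfl⟩ := Cnt_ex hC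
  intro y hy
  exact ⟨x, hx, Cnt_mem.1 hy⟩

private theorem Cnt_swap {E : Finset (Sym2 V)} {K : Finset (Set V)} (D : Finset (Sym2 V))
    (f : Set V → Finset (Sym2 V)) (hf : ∀ C ∈ K, f C = D.filter (fun e => e ∈ tch E C)) :
    ∑ C ∈ K, (f C).card = ∑ e ∈ D, ∑ C ∈ K, (if e ∈ tch E C then 1 else 0) := by
  rw [Finset.sum_comm]
  refine Finset.sum_congr rfl fun C hC => ?_
  rw [hf C hC, Finset.card_filter]

theorem cls_unique {B : Finset V} {ω : Finset (Sym2 V)} {C : Set V} (hC : C ∈ cls B ω) {a : V}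
    (ha : a ∈ C) : C = Cl ω {a} := by
  obtain ⟨x, _, rfl⟩ := Cnt_ex hC
  have h1 := Cnt_mem.1 ha
  ext y
  rw [Cnt_mem, Cnt_mem]
  exact ⟨fun h => Conn_trans (Conn_symm h1) h, fun h => Conn_trans h1 h⟩

theorem sum_nop_le {E ω : Finset (Sym2 V)} (hω : ω ⊆ E) (B : Finset V) :
    ∑ C ∈ cls B ω, nop E ω C ≤ nop E ω (Cl ω B) := by
  unfold nop
  rw [← Finset.card_biUnion]
  · refine Finset.card_le_card ?_
    intro e he
    rw [Finset.mem_biUnion] at he
    obtain ⟨C, hC, he⟩ := he
    rw [Finset.mem_inter] at he ⊢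
    refine ⟨he.1, ?_⟩
    have h2 := he.2
    unfold tch at h2 ⊢
    rw [Finset.mem_filter] at h2 ⊢
    obtain ⟨a, ha, ha'⟩ := h2.2
    exact ⟨h2.1, a, ha, Cnt_sub hC ha'⟩
  · intro C₁ h₁ C₂ h₂ hne
    rw [Function.onFun, Finset.disjoint_left]
    intro e he₁ he₂
    apply hne
    rw [Finset.mem_inter] at he₁ he₂
    induction e using Sym2.ind with
    | _ a b =>
      have hab : Conn ω a b := Conn_edge he₁.1
      have k₁ : a ∈ C₁ := by
        rcases (mem_tch.1 he₁.2).2 with h | h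
        · exact h
        · exact Cnt_closed h₁ h (Conn_symm hab)
      have k₂ : a ∈ C₂ := by
        rcases (mem_tch.1 he₂.2).2 with h | h
        · exact h
        · exact Cnt_closed h₂ h (Conn_symm hab)
      rw [cls_unique h₁ k₁, cls_unique h₂ k₂]

theorem le_sum_ncl {E ω : Finset (Sym2 V)} (hω : ω ⊆ E) (B : Finset V) :
    ncl E ω (Cl ω B) + (two E B ω).card ≤ ∑ C ∈ cls B ω, ncl E ω C := by
  unfold ncl
  have hsd : ∀ C : Set V, tch E C \ ω = (E \ ω).filter (fun e => e ∈ tch E C) := by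
    intro C
    ext e
    rw [Finset.mem_sdiff, Finset.mem_filter, Finset.mem_sdiff]
    constructor
    · rintro ⟨h1, h2⟩
      have h3 : e ∈ E := by
        unfold tch at h1
        exact (Finset.mem_filter.1 h1).1
      exact ⟨⟨h3, h2⟩, h1⟩
    · rintro ⟨⟨_, h2⟩, h1⟩
      exact ⟨h1, h2⟩
  rw [Cnt_swap (E := E) (E \ ω) (fun C => tch E C \ ω) (fun C _ => hsd C), hsd, Finset.card_filter]
  unfold two
  rw [Finset.card_filter, ← Finset.sum_add_distrib]
  refine Finset.sum_le_sum fun e he => ?_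
  have heE : e ∈ E := (Finset.mem_sdiff.1 he).1
  by_cases hP : ∃ a b, e = s(a, b) ∧ a ∈ Cl ω B ∧ b ∈ Cl ω B ∧ ¬ Conn ω a b
  · obtain ⟨a, b, rfl, ha, hb, hab⟩ := id hP
    obtain ⟨C₁, h₁, ha₁⟩ := Cnt_in ha
    obtain ⟨C₂, h₂, hb₂⟩ := Cnt_in hb
    have hne : C₁ ≠ C₂ := by
      rintro rfl
      rw [cls_unique h₁ ha₁] at hb₂
      exact hab (Cnt_mem.1 hb₂)
    have t1 : s(a, b) ∈ tch E C₁ := mem_tch.2 ⟨heE, Or.inl ha₁⟩
    have t2 : s(a, b) ∈ tch E C₂ := mem_tch.2 ⟨heE, Or.inr hb₂⟩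
    have h3 : ∑ C ∈ ({C₁, C₂} : Finset (Set V)), (if s(a, b) ∈ tch E C then 1 else 0) ≤
        ∑ C ∈ cls B ω, (if s(a, b) ∈ tch E C then 1 else 0) := by
      refine Finset.sum_le_sum_of_subset ?_
      intro C hC
      rw [Finset.mem_insert, Finset.mem_singleton] at hC
      rcases hC with rfl | rfl
      · exact h₁
      · exact h₂
    rw [Finset.sum_pair hne, if_pos t1, if_pos t2] at h3
    refine le_trans ?_ h3
    rw [if_pos hP]
    refine Nat.add_le_add_right ?_ 1
    split_ifs <;> omega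
  · rw [if_neg hP, add_zero]
    by_cases ht : e ∈ tch E (Cl ω B)
    · rw [if_pos ht]
      have ht2 := ht
      unfold tch at ht2
      rw [Finset.mem_filter] at ht2
      obtain ⟨_, a, ha, ha'⟩ := ht2
      obtain ⟨C, hC, haC⟩ := Cnt_in ha'
      have h4 : e ∈ tch E C := by
        unfold tch
        rw [Finset.mem_filter]
        exact ⟨heE, a, ha, haC⟩
      have h5 := Finset.single_le_sum (f := fun C => if e ∈ tch E C then 1 else 0)
        (fun _ _ => Nat.zero_le _) hC
      rw [if_pos h4] at h5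
      exact h5
    · rw [if_neg ht]
      exact Nat.zero_le _

theorem sum_all_le {E ω : Finset (Sym2 V)} (hω : ω ⊆ E) (B : Finset V) :
    ∑ C ∈ cls B ω, (nop E ω C + ncl E ω C) ≤ 2 * E.card := by
  have h1 : ∀ C : Set V, nop E ω C + ncl E ω C = (tch E C).card := by
    intro C
    unfold nop ncl
    rw [Finset.inter_comm]
    exact Finset.card_inter_add_card_sdiff _ _
  rw [Finset.sum_congr rfl fun C _ => h1 C, Cnt_swap (E := E) E (fun C => tch E C) (fun C _ => by
    ext e
    rw [Finset.mem_filter]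
    refine ⟨fun h => ⟨?_, h⟩, fun h => h.2⟩
    unfold tch at h
    exact (Finset.mem_filter.1 h).1)]
  have h2 : ∀ e ∈ E, ∑ C ∈ cls B ω, (if e ∈ tch E C then 1 else 0) ≤ 2 := by
    intro e he
    rw [← Finset.card_filter]
    induction e using Sym2.ind with
    | _ a b =>
      refine (Finset.card_le_card (t := ({Cl ω {a}, Cl ω {b}} : Finset (Set V))) ?_).trans
        Finset.card_le_two
      intro C hC
      rw [Finset.mem_filter] at hC
      rw [Finset.mem_insert, Finset.mem_singleton]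
      rcases (mem_tch.1 hC.2).2 with h | h
      · exact Or.inl (cls_unique hC.1 h)
      · exact Or.inr (cls_unique hC.1 h)
  refine (Finset.sum_le_sum h2).trans ?_
  rw [Finset.sum_const, smul_eq_mul, mul_comm]

theorem sum_cls_le (B : Finset V) (ω : Finset (Sym2 V)) (F : Set V → ℝ) (hF : ∀ C, 0 ≤ F C) :
    ∑ C ∈ cls B ω, F C ≤ ∑ x ∈ B, F (Cl ω {x}) := by
  unfold cls
  induction B using Finset.induction_on with
  | empty => simp
  | insert b B hb ih =>
    rw [Finset.image_insert, Finset.sum_insert hb]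
    by_cases h : Cl ω {b} ∈ B.image fun x => Cl ω {x}
    · rw [Finset.insert_eq_of_mem h]
      have := hF (Cl ω {b})
      linarith
    · rw [Finset.sum_insert h]
      linarith

end IPC.U
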