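import Pool.Agent.Lib.MP_25e40f_pr.T.Ein
import Pool.Agent.Lib.MP_25e40f_pr.A.Prb

/-!
# Stream U, job Exp: exploration of the cluster of a finite set of vertices (about 130 lines)

`tch E C` = edges of `E` with an endpoint in `C`; `nop` (`ncl`) = number of open (closed) edges of `E` touching `C`.

THEOREM `explore`.  If `p φ(i+1, j) + (1-p) φ(i, j+1) = φ(i, j)` for all `i, j`, then for every start set `X`
`E φ(i + nop E ω (Cl ω X), j + ncl E ω (Cl ω X)) = φ(i, j)`.

PROOF.  Induction on `E.card`, for all `X, i, j` (e.g. `Nat.strong_induction_on`, or `Finset.strongInduction`).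
(1) No edge of `E` touches `X`.  For `ω ⊆ E`: `Cl ω X = X` (`Conn_closed` with `S = X`: an edge of `ω` with an endpoint in `X` does not exist), so `tch E (Cl ω X) = ∅`, `nop = ncl = 0`, and `EE_const`.
(2) Some `e ∈ E`, `e = s(u, v)` with `u ∈ X`.  Let `E' = E.erase e`, `E = insert e E'`; `EE_insert`:  `p * EE p E' (fun ω => f (insert e ω)) + (1 - p) * EE p E' f`.  For `ω ⊆ E'` (so `e ∉ ω`):
  * OPEN: `Cl (insert e ω) X = Cl ω (insert v X)` [`⊆`: `Conn_insert`: `Conn ω f y`, or `Conn ω v y` (start at `v`), or `Conn ω u y` (start at `u ∈ X`); `⊇`: `v` is connected to `u ∈ X` by `e`; `Conn_mono`];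
    `tch E C = insert e (tch E' C)` for `C = Cl ω (insert v X)` (as `v ∈ C`); so `nop E (insert e ω) C = nop E' ω C + 1` [`insert e ω ∩ insert e T = insert e (ω ∩ T)`, `e ∉ ω`] and `ncl E (insert e ω) C = ncl E' ω C`
    [`insert e T \ insert e ω = T \ ω` as `e ∉ T = tch E' C ⊆ E'`].
  * CLOSED: `C = Cl ω X ∋ u`: `tch E C = insert e (tch E' C)`, `nop E ω C = nop E' ω C` (as `e ∉ ω`), `ncl E ω C = ncl E' ω C + 1`.
  So with the induction hypothesis (`E'.card < E.card`; start set `insert v X`, indices `i + 1, j`; start set `X`, indices `i, j + 1`): `p φ(i+1, j) + (1-p) φ(i, j+1) = φ(i, j)`.  (`EE_congr` to rewrite the functions.)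
`explore_exp`: `φ i j = a ^ i * b ^ j`.  `explore_lin`: `φ i j = p * j - (1 - p) * i`.
-/

set_option autoImplicit false

noncomputable section

open Finset
open scoped Classical

namespace IPC.U

variable {V : Type} [DecidableEq V]

/-- edges of `E` touching a set of vertices -/
def tch (E : Finset (Sym2 V)) (C : Set V) : Finset (Sym2 V) := E.filter fun e => ∃ a ∈ e, a ∈ C

/-- number of open edges touching `C` -/
def nop (E ω : Finset (Sym2 V)) (C : Set V) : ℕ := (ω ∩ tch E C).card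

/-- number of closed edges touching `C` -/
def ncl (E ω : Finset (Sym2 V)) (C : Set V) : ℕ := (tch E C \ ω).card

theorem mem_tch {E : Finset (Sym2 V)} {C : Set V} {a b : V} :
    s(a, b) ∈ tch E C ↔ s(a, b) ∈ E ∧ (a ∈ C ∨ b ∈ C) := by
  unfold tch
  rw [Finset.mem_filter]
  constructor
  · rintro ⟨h1, c, hc, hcC⟩
    refine ⟨h1, ?_⟩
    rcases Sym2.mem_iff.1 hc with rfl | rfl
    · exact Or.inl hcC
    · exact Or.inr hcC
  · rintro ⟨h1, h2 | h2⟩
    · exact ⟨h1, a, Sym2.mem_mk_left a b, h2⟩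
    · exact ⟨h1, b, Sym2.mem_mk_right a b, h2⟩

private theorem Exp_tch_insert {E : Finset (Sym2 V)} {C : Set V} {u v : V} (h : u ∈ C ∨ v ∈ C) :
    tch (insert s(u, v) E) C = insert s(u, v) (tch E C) := by
  ext e
  induction e using Sym2.ind with
  | _ a b =>
    rw [mem_tch, Finset.mem_insert, Finset.mem_insert, mem_tch]
    constructor
    · rintro ⟨h1 | h1, h2⟩
      · exact Or.inl h1
      · exact Or.inr ⟨h1, h2⟩
    · rintro (h1 | ⟨h1, h2⟩)
      · refine ⟨Or.inl h1, ?_⟩
        rcases Sym2.eq_iff.1 h1 with ⟨rfl, rfl⟩ | ⟨rfl, rfl⟩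
        · exact h
        · exact h.symm
      · exact ⟨Or.inr h1, h2⟩

private theorem Exp_notMem {E : Finset (Sym2 V)} {C : Set V} {e : Sym2 V} (h : e ∉ E) : e ∉ tch E C :=
  fun h1 => h (Finset.mem_filter.1 h1).1

private theorem Exp_nop_open {E ω : Finset (Sym2 V)} {C : Set V} {u v : V} (h : u ∈ C ∨ v ∈ C)
    (hω : s(u, v) ∉ ω) : nop (insert s(u, v) E) (insert s(u, v) ω) C = nop E ω C + 1 := by
  unfold nop
  rw [Exp_tch_insert h, ← Finset.insert_inter_distrib, Finset.card_insert_of_notMem]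
  exact fun h1 => hω (Finset.mem_inter.1 h1).1

private theorem Exp_ncl_open {E ω : Finset (Sym2 V)} {C : Set V} {u v : V} (h : u ∈ C ∨ v ∈ C)
    (hE : s(u, v) ∉ E) : ncl (insert s(u, v) E) (insert s(u, v) ω) C = ncl E ω C := by
  unfold ncl
  rw [Exp_tch_insert h]
  congr 1
  ext e
  simp only [Finset.mem_sdiff, Finset.mem_insert, not_or]
  constructor
  · rintro ⟨h1 | h1, h2, h3⟩
    · exact absurd h1 h2
    · exact ⟨h1, h3⟩
  · rintro ⟨h1, h2⟩
    refine ⟨Or.inr h1, ?_, h2⟩
    rintro rfl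
    exact Exp_notMem hE h1

private theorem Exp_nop_closed {E ω : Finset (Sym2 V)} {C : Set V} {u v : V} (h : u ∈ C ∨ v ∈ C)
    (hω : s(u, v) ∉ ω) : nop (insert s(u, v) E) ω C = nop E ω C := by
  unfold nop
  rw [Exp_tch_insert h]
  congr 1
  ext e
  simp only [Finset.mem_inter, Finset.mem_insert]
  constructor
  · rintro ⟨h1, h2 | h2⟩
    · rw [h2] at h1
      exact absurd h1 hω
    · exact ⟨h1, h2⟩
  · rintro ⟨h1, h2⟩
    exact ⟨h1, Or.inr h2⟩

private theorem Exp_ncl_closed {E ω : Finset (Sym2 V)} {C : Set V} {u v : V} (h : u ∈ C ∨ v ∈ C)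
    (hE : s(u, v) ∉ E) (hω : s(u, v) ∉ ω) : ncl (insert s(u, v) E) ω C = ncl E ω C + 1 := by
  unfold ncl
  rw [Exp_tch_insert h, Finset.insert_sdiff_of_notMem _ hω, Finset.card_insert_of_notMem]
  exact fun h1 => Exp_notMem hE (Finset.mem_sdiff.1 h1).1

private theorem Exp_Cl {ω : Finset (Sym2 V)} {X : Finset V} {u v : V} (hu : u ∈ X) :
    Cl (insert s(u, v) ω) X = Cl ω (insert v X) := by
  ext y
  constructor
  · rintro ⟨f, hf, h⟩
    rcases Conn_insert h with h1 | ⟨_, h1⟩ | ⟨_, h1⟩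
    · exact ⟨f, Finset.mem_insert_of_mem hf, h1⟩
    · exact ⟨v, Finset.mem_insert_self v X, h1⟩
    · exact ⟨u, Finset.mem_insert_of_mem hu, h1⟩
  · rintro ⟨f, hf, h⟩
    rcases Finset.mem_insert.1 hf with rfl | hf
    · exact ⟨u, hu, Conn_trans (Conn_edge (Finset.mem_insert_self _ _))
        (Conn_mono (Finset.subset_insert _ _) h)⟩
    · exact ⟨f, hf, Conn_mono (Finset.subset_insert _ _) h⟩

theorem explore (p : ℝ) (φ : ℕ → ℕ → ℝ)
    (hφ : ∀ i j, p * φ (i + 1) j + (1 - p) * φ i (j + 1) = φ i j)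
    (E : Finset (Sym2 V)) (X : Finset V) (i j : ℕ) :
    EE p E (fun ω => φ (i + nop E ω (Cl ω X)) (j + ncl E ω (Cl ω X))) = φ i j := by
  induction hn : E.card using Nat.strong_induction_on generalizing E X i j with
  | _ n ih =>
    by_cases h : ∃ u ∈ X, ∃ v, s(u, v) ∈ E
    · obtain ⟨u, hu, v, he⟩ := h
      obtain ⟨E', hE', rfl⟩ : ∃ E', s(u, v) ∉ E' ∧ insert s(u, v) E' = E :=
        ⟨E.erase s(u, v), Finset.notMem_erase _ _, Finset.insert_erase he⟩
      have hlt : E'.card < n := by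
        rw [← hn, Finset.card_insert_of_notMem hE']
        exact Nat.lt_succ_self _
      rw [EE_insert p hE']
      have h1 : EE p E' (fun ω => φ (i + nop (insert s(u, v) E') (insert s(u, v) ω) (Cl (insert s(u, v) ω) X))
          (j + ncl (insert s(u, v) E') (insert s(u, v) ω) (Cl (insert s(u, v) ω) X))) = φ (i + 1) j := by
        rw [← ih E'.card hlt E' (insert v X) (i + 1) j rfl]
        refine EE_congr p E' fun ω hω => ?_
        have hv : v ∈ Cl ω (insert v X) := ⟨v, Finset.mem_insert_self v X, Conn_refl _ _⟩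
        rw [Exp_Cl hu, Exp_nop_open (Or.inr hv) (fun h2 => hE' (hω h2)), Exp_ncl_open (Or.inr hv) hE']
        have h3 : i + (nop E' ω (Cl ω (insert v X)) + 1) = i + 1 + nop E' ω (Cl ω (insert v X)) := by omega
        rw [h3]
      have h2 : EE p E' (fun ω => φ (i + nop (insert s(u, v) E') ω (Cl ω X))
          (j + ncl (insert s(u, v) E') ω (Cl ω X))) = φ i (j + 1) := by
        rw [← ih E'.card hlt E' X i (j + 1) rfl]
        refine EE_congr p E' fun ω hω => ?_
        have hu' : u ∈ Cl ω X := ⟨u, hu, Conn_refl _ _⟩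
        rw [Exp_nop_closed (Or.inl hu') (fun h2 => hE' (hω h2)), Exp_ncl_closed (Or.inl hu') hE'
          (fun h2 => hE' (hω h2))]
        have h3 : j + (ncl E' ω (Cl ω X) + 1) = j + 1 + ncl E' ω (Cl ω X) := by omega
        rw [h3]
      rw [h1, h2, hφ]
    · rw [← EE_const p E (φ i j)]
      refine EE_congr p E fun ω hω => ?_
      have h1 : ∀ y ∈ Cl ω X, y ∈ X := by
        rintro y ⟨f, hf, hc⟩
        have h2 := Conn_closed (X : Set V) (Finset.mem_coe.2 hf) (fun a b hab ha =>
          absurd ⟨a, Finset.mem_coe.1 ha, b, hω hab⟩ h) hc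
        exact Finset.mem_coe.1 h2
      have h2 : tch E (Cl ω X) = ∅ := by
        rw [Finset.eq_empty_iff_forall_notMem]
        intro e
        induction e using Sym2.ind with
        | _ a b =>
          intro hab
          obtain ⟨h3, h4 | h4⟩ := mem_tch.1 hab
          · exact h ⟨a, h1 a h4, b, h3⟩
          · exact h ⟨b, h1 b h4, a, by rw [Sym2.eq_swap]; exact h3⟩
      have h3 : nop E ω (Cl ω X) = 0 := by
        unfold nop
        rw [h2, Finset.inter_empty, Finset.card_empty]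
      have h4 : ncl E ω (Cl ω X) = 0 := by
        unfold ncl
        rw [h2, Finset.empty_sdiff, Finset.card_empty]
      rw [h3, h4, add_zero, add_zero]

theorem explore_exp (p a b : ℝ) (h : p * a + (1 - p) * b = 1) (E : Finset (Sym2 V)) (X : Finset V) :
    EE p E (fun ω => a ^ nop E ω (Cl ω X) * b ^ ncl E ω (Cl ω X)) = 1 := by
  have h1 := explore p (fun i j => a ^ i * b ^ j) (fun i j => by
    show p * (a ^ (i + 1) * b ^ j) + (1 - p) * (a ^ i * b ^ (j + 1)) = a ^ i * b ^ j
    linear_combination (a ^ i * b ^ j) * h) E X 0 0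
  simpa only [Nat.zero_add, pow_zero, mul_one] using h1

theorem explore_lin (p : ℝ) (E : Finset (Sym2 V)) (X : Finset V) :
    EE p E (fun ω => p * (ncl E ω (Cl ω X) : ℝ) - (1 - p) * (nop E ω (Cl ω X) : ℝ)) = 0 := by
  have h1 := explore p (fun i j => p * (j : ℝ) - (1 - p) * (i : ℝ)) (fun i j => by
    push_cast
    ring) E X 0 0
  simpa only [Nat.zero_add, Nat.cast_zero, mul_zero, sub_zero] using h1

end IPC.U
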